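import Pool.Agent.E8helper3.CH.Cpt

/-!
# The Weil-étale motivic cohomology of every scheme is, up to that of a point, the one of a smooth affine
# cubic hypersurface

`WeilEtale k E` lists the properties which are used of Weil-étale motivic cohomology with compact supports
`H^i_c(X_W, E(n))` of separated schemes `X` of finite type over a finite field `k`, with coefficients in `E`: for
`E = ℤ[1/p]` it is the cohomology with compact supports of the complexes `cone (1 - φ)[-1]` on `X̄` (étale motivic
complexes; all the properties are theorems); for `E = ℤ` it is Geisser's arithmetic cohomology with compact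
supports, for which the properties are theorems under resolution of singularities. For `X` smooth and
projective it is the group `H^i_W(X, ℤ(n))` (tensored with `E`). The Gysin map of a rational point `x` of a smooth
scheme `U` of dimension `M` is the map `H^i_c(k_W, E(n)) → H^{i+2M}_c(U_W, E(n+M))`.

Let `X` be affine, or quasi-projective, for instance smooth and projective (`InJ`: some affine bundle over `X`
has an affine total space, Jouanolou). We construct polynomials `gₖ` of degree at most two such that the smooth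
affine cubic hypersurface `H : ∑ yₖ gₖ(x) = 1` satisfies

`H^{i+s}_c(H_W, E(n+t)) = H^i_c(X_W, E(n)) ⊕ H^{i+1-2m}_c(k_W, E(n-m))` for all `i` and `n`,

with constants `s`, `t`, `m`. The second summand is finite or zero for `n < m`. So `L^n(X)` (finite generation) holds
if and only if `L^{n+t}(H)` holds, and `K^n(X)` (the comparison with `ℓ`-adic cohomology) holds if and only if
`K^{n+t}(H)` holds, for each single `X` and each single `n`.
-/

set_option autoImplicit false

open CategoryTheory CategoryTheory.Limits AlgebraicGeometry MvPolynomial TensorProduct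
open Pool.Agent.R904.CU Pool.Agent.Y116.UV Pool.Agent.E8helper3.CH

namespace Pool.Agent.Results.MP_cb388a_ag.CubicSuspensionH3

/-- Weil-étale motivic cohomology with compact supports, with coefficients in `E`, for the schemes over `k`:
the groups `H i n X = H^i_c(X_W, E(n))` and their known properties. -/
structure WeilEtale (k : Type) [Field k] (E : Type) [CommRing E] extends
    CompactTheory k (ModuleCat.{0} E) where
  /-- the groups `H^i_c(X̄, E(n))` over the algebraic closure -/
  Hbar : ℤ → ℤ → Sch k → ModuleCat.{0} E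
  /-- the Frobenius `φ` on `H^i_c(X̄, E(n))` -/
  frob : ∀ i n X, Hbar i n X ⟶ Hbar i n X
  /-- `H^i_c(X̄, E(n)) → H^{i+1}_c(X_W, E(n))` -/
  bd : ∀ i n X, Hbar i n X ⟶ H (i + 1) n X
  /-- `H^i_c(X_W, E(n)) → H^i_c(X̄, E(n))` -/
  res : ∀ i n X, H i n X ⟶ Hbar i n X
  /-- the exact sequences `0 → H^i_c(X̄)_φ → H^{i+1}_c(X_W) → H^{i+1}_c(X̄)^φ → 0` -/
  coinv : ∀ i n X, FT True X → ExactPair (𝟙 (Hbar i n X) - frob i n X) (bd i n X)
  middle : ∀ i n X, FT True X → ExactPair (bd i n X) (res (i + 1) n X)
  inv : ∀ i n X, FT True X → ExactPair (res i n X) (𝟙 (Hbar i n X) - frob i n X)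
  /-- the groups `H^i_W(k, E(n))` are finitely generated -/
  point : ∀ i n : ℤ, Module.Finite E (H i n (aff k k))

/-- The comparison with cohomology with coefficients in `Λ = ℤ_ℓ`: the maps
`H^i_c(X_W, E(n)) ⊗ Λ → H^i_c(X, Λ(n))` have the properties of a cohomology theory with compact supports with values
in the category of maps of `Λ`-modules. -/
structure Comparison {k : Type} [Field k] {E : Type} [CommRing E] (W : WeilEtale k E) (Λ : Type)
    [CommRing Λ] [Algebra E Λ] extends
    CompactTheory k (ComposableArrows (ModuleCat.{0} Λ) 1) where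
  /-- the source is `H^i_c(X_W, E(n)) ⊗ Λ` -/
  source : ∀ i n X, FT True X →
    Nonempty ((H i n X).left ≅ ModuleCat.of Λ (Λ ⊗[E] (W.H i n X : Type)))
  /-- for the point the comparison map is an isomorphism -/
  point : ∀ i n : ℤ, IsIso (H i n (aff k k)).hom

/-- `L^n(X)`: all the groups `H^i_c(X_W, E(n))` are finitely generated. -/
def L {k : Type} [Field k] {E : Type} [CommRing E] (W : WeilEtale k E) (n : ℤ) (X : Sch k) : Prop :=
  ∀ i, Module.Finite E (W.H i n X)

/-- `K^n(X)` (for the prime `ℓ` with `Λ = ℤ_ℓ`): the comparison maps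
`H^i_c(X_W, E(n)) ⊗ Λ → H^i_c(X, Λ(n))` are isomorphisms. -/
def K {k : Type} [Field k] {E : Type} [CommRing E] {W : WeilEtale k E} {Λ : Type} [CommRing Λ]
    [Algebra E Λ] (C : Comparison W Λ) (n : ℤ) (X : Sch k) : Prop :=
  ∀ i, IsIso (C.H i n X).hom

section algebra

variable {E : Type} [CommRing E]

theorem finite_biprod (A B : ModuleCat.{0} E) (hB : Module.Finite E B) :
    Module.Finite E (A ⊞ B : ModuleCat.{0} E) ↔ Module.Finite E A := by
  constructor
  · intro h
    have h1 : Function.Surjective (biprod.fst : A ⊞ B ⟶ A).hom :=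
      (ModuleCat.epi_iff_surjective _).1 inferInstance
    exact Module.Finite.of_surjective _ h1
  · intro h
    exact Module.Finite.equiv (ModuleCat.biprodIsoProd A B).symm.toLinearEquiv

theorem finite_iso {A B : ModuleCat.{0} E} (e : A ≅ B) : Module.Finite E A ↔ Module.Finite E B :=
  ⟨fun _ => Module.Finite.equiv e.toLinearEquiv, fun _ => Module.Finite.equiv e.symm.toLinearEquiv⟩

theorem isIso_of_iso {A B : ComposableArrows (ModuleCat.{0} E) 1} (e : A ≅ B) (h : IsIso A.hom) :
    IsIso B.hom := by
  have h1 : B.hom = e.inv.app 0 ≫ A.hom ≫ e.hom.app 1 := by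
    have h2 : A.hom ≫ e.hom.app 1 = e.hom.app 0 ≫ B.hom := e.hom.naturality _
    rw [h2, ← Category.assoc, ← NatTrans.comp_app, e.inv_hom_id, NatTrans.id_app, Category.id_comp]
  rw [h1]
  infer_instance

theorem nat {A B : ComposableArrows (ModuleCat.{0} E) 1} (f : A ⟶ B) :
    A.hom ≫ f.app 1 = f.app 0 ≫ B.hom := f.naturality _

theorem total (A B : ComposableArrows (ModuleCat.{0} E) 1) (i : Fin 2) :
    (biprod.fst : A ⊞ B ⟶ A).app i ≫ (biprod.inl : A ⟶ A ⊞ B).app i +
      (biprod.snd : A ⊞ B ⟶ B).app i ≫ (biprod.inr : B ⟶ A ⊞ B).app i = 𝟙 _ := by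
  exact congrArg (fun t : A ⊞ B ⟶ A ⊞ B => t.app i) (biprod.total (X := A) (Y := B))

theorem isIso_biprod (A B : ComposableArrows (ModuleCat.{0} E) 1) (hB : IsIso B.hom) :
    IsIso (A ⊞ B : ComposableArrows (ModuleCat.{0} E) 1).hom ↔ IsIso A.hom := by
  constructor
  · intro h
    refine ⟨(biprod.inl : A ⟶ A ⊞ B).app 1 ≫ CategoryTheory.inv (A ⊞ B : ComposableArrows _ 1).hom ≫
      (biprod.fst : A ⊞ B ⟶ A).app 0, ?_, ?_⟩
    · rw [← Category.assoc, nat, Category.assoc, IsIso.hom_inv_id_assoc, ← NatTrans.comp_app,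
        biprod.inl_fst, NatTrans.id_app]
      rfl
    · rw [Category.assoc, Category.assoc, ← nat, IsIso.inv_hom_id_assoc, ← NatTrans.comp_app,
        biprod.inl_fst, NatTrans.id_app]
      rfl
  · intro h
    refine ⟨(biprod.fst : A ⊞ B ⟶ A).app 1 ≫ CategoryTheory.inv A.hom ≫
      (biprod.inl : A ⟶ A ⊞ B).app 0 + (biprod.snd : A ⊞ B ⟶ B).app 1 ≫
      CategoryTheory.inv B.hom ≫ (biprod.inr : B ⟶ A ⊞ B).app 0, ?_, ?_⟩
    · rw [Preadditive.comp_add, ← Category.assoc, nat, Category.assoc, IsIso.hom_inv_id_assoc,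
        ← Category.assoc (_ : (A ⊞ B : ComposableArrows _ 1).left ⟶ _), nat, Category.assoc,
        IsIso.hom_inv_id_assoc]
      exact total A B 0
    · rw [Preadditive.add_comp, Category.assoc, Category.assoc, ← nat, IsIso.inv_hom_id_assoc,
        Category.assoc, Category.assoc, ← nat, IsIso.inv_hom_id_assoc]
      exact total A B 1

end algebra

/-- Let `k` be a finite field and `X` a separated scheme of finite type over `k` with an affine bundle whose
total space is affine. There are constants `N`, `m₀` such that for all `m ≥ m₀` there are polynomials `gₗ` of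
degree at most two over `k` in `m + N` variables such that the cubic hypersurface `H : ∑ yₗ gₗ(x) = 1`, in
`m + N + r + 1` variables, is smooth and satisfies
`H^{i+1+2N+2r}_c(H_W, E(n+N+r)) = H^i_c(X_W, E(n)) ⊕ H^{i+1-2m}_c(k_W, E(n-m))` for all `i`, `n`; in particular
`L^n(X)` is equivalent to `L^{n+N+r}(H)`, and `K^n(X)` to `K^{n+N+r}(H)`, for all `n`. -/
theorem result (k : Type) [Field k] [Finite k] (X : Sch k) (hX : InJ True X) :
    ∃ N m₀ : ℕ, ∀ m : ℕ, m₀ ≤ m → ∃ (r : ℕ) (g : Fin (r + 1) → MvPolynomial (Fin (m + N)) k),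
      (∀ l, (g l).totalDegree ≤ 2) ∧ Smooth (cub g).hom ∧
      ∀ (E : Type) [CommRing E] (W : WeilEtale k E),
        (∀ i n : ℤ, Nonempty (W.H (i + 1 + 2 * N + 2 * r) (n + N + r) (cub g) ≅
          W.H i n X ⊞ W.H (i + 1 - 2 * m) (n - m) (aff k k))) ∧
        (∀ n : ℤ, L W n X ↔ L W (n + N + r) (cub g)) ∧
        ∀ (Λ : Type) [CommRing Λ] [Algebra E Λ] (C : Comparison W Λ) (n : ℤ),
          K C n X ↔ K C (n + N + r) (cub g) := by
  obtain ⟨N, m₀, h⟩ := compact_formula k X hX
  refine ⟨N, m₀, fun m hm => ?_⟩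
  obtain ⟨r, g, hg, hT⟩ := h m hm
  refine ⟨r, g, hg, smooth_cub g, fun E _ W => ⟨fun i n => hT _ W.toCompactTheory i n, fun n => ?_,
    fun Λ _ _ C n => ?_⟩⟩
  · have key : ∀ i : ℤ, Module.Finite E (W.H (i + 1 + 2 * N + 2 * r) (n + N + r) (cub g)) ↔
        Module.Finite E (W.H i n X) := by
      intro i
      obtain ⟨e⟩ := hT _ W.toCompactTheory i n
      exact (finite_iso e).trans (finite_biprod _ _ (W.point _ _))
    constructor
    · intro h1 i
      obtain ⟨i, rfl⟩ : ∃ i', i = i' + 1 + 2 * (N : ℤ) + 2 * r := ⟨i - 1 - 2 * N - 2 * r, by ring⟩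
      exact (key i).2 (h1 i)
    · intro h1 i
      exact (key i).1 (h1 _)
  · have key : ∀ i : ℤ, IsIso (C.H (i + 1 + 2 * N + 2 * r) (n + N + r) (cub g)).hom ↔
        IsIso (C.H i n X).hom := by
      intro i
      obtain ⟨e⟩ := hT _ C.toCompactTheory i n
      exact ⟨fun h => (isIso_biprod _ _ (C.point _ _)).1 (isIso_of_iso e h),
        fun h => isIso_of_iso e.symm ((isIso_biprod _ _ (C.point _ _)).2 h)⟩
    constructor
    · intro h1 i
      obtain ⟨i, rfl⟩ : ∃ i', i = i' + 1 + 2 * (N : ℤ) + 2 * r := ⟨i - 1 - 2 * N - 2 * r, by ring⟩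
      exact (key i).2 (h1 i)
    · intro h1 i
      exact (key i).1 (h1 _)

end Pool.Agent.Results.MP_cb388a_ag.CubicSuspensionH3
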