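import Pool.Agent.E8helper65.PG.Main
import Pool.Agent.TH117.GN.WeilEtaleDefs

/-!
# Finite generation of Weil-étale motivic cohomology for the smooth projective varieties generated by
# abelian varieties of dimension at most five, and by products of elliptic curves, abelian surfaces and
# threefolds

An abelian variety over the field with `p ^ a` elements is modelled by `RedAV` (Honda, Tate): a
finite product of CM types `(E i, Φ i)` with Weil numbers `π i ∈ E i` that satisfy the formula of
Shimura and Taniyama; its cohomology of degree `n`, with coefficients in an algebraically closed field
`Ω`, consists of the alternating `n`-forms on the Tate module `Ω ⊗ H_1`, on which the Frobenius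
endomorphism acts by `π`.

We consider (`IsGoodAVP`) the abelian varieties `Y` over finite fields of the following kinds:

* **all abelian varieties of dimension at most five**;
* the abelian varieties that are isogenous, over an algebraic closure, to a product of a supersingular
  abelian variety of any dimension and of abelian varieties of dimension at most three (any number, any
  multiplicity), such that any two factors of dimension three whose CM fields have the same Galois
  closure satisfy one of the following: their fields are Galois over `ℚ`; one of them is supersingular;
  they are isogenous; neither of them is ordinary and their `p`-ranks are not `{1, 2}`. So `Y` may be
  **any product of elliptic curves and abelian surfaces**, of any dimension.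

`Homology Ω V` are data of motivic homology `M X n j = H_n^M(X, ℚ(j)) = CH_j(X, n - 2 j) ⊗ ℚ` (higher
Chow groups) and of `ℓ`-adic homology `E X n j = H_n(X, ℚ_ℓ(j))` of schemes `X : V` of finite type over
finite fields, with the Frobenius and the regulator. Let `𝒢` (`GeneratedD`) be the smallest class of
schemes that contains those with the homology groups of the abelian varieties above, that is closed
under direct summands of finite sums of twists of motives, that contains all of a closed subscheme
`Z` of `X`, `X` and `X ∖ Z` if it contains two of them, and that contains `X` if it contains the base
change of `X` to a finite extension of the ground field. For example, it contains all products of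
curves of genus at most two, the twisted forms of such products, symmetric powers of them, and the
varieties dominated by an abelian variety of dimension at most five whose motive is a direct summand.

**Theorem.** For all smooth projective varieties `X` in `𝒢` (the property `S`) and all `n` and `i` the
Weil-étale motivic cohomology group `W X n i = H^i_W(X, ℤ(n))` is finitely generated: `L^n(X)` holds.

We use the theorem of Geisser and Kahn (`IsWeilEtale`) that these groups are finitely generated if for
`X` the conjecture of Tate and Beilinson `TB` holds (for all degrees and twists). Properties of the
theory of cycles that are used for the abelian varieties `Y` (`IsChowS`, `IsMotivic`): Poincaré duality,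
the formal properties of correspondences, the nilpotence of homologically trivial correspondences
(Kimura), the operation of the Frobenius endomorphism on higher Chow groups, the vanishing of the
higher rational `K`-groups of a finite field (Quillen), and the algebraicity of the classes in `AlgS`
(theorems of Tate, Markman and Ramón Marí). That all Tate classes on `Y` are in `AlgS`, and that the
conjecture of Tate for `Y` implies `TB`, which passes to direct summands and to open and closed
subschemes, is in the starting files (following Soulé, Geisser, Kahn and Jannsen). New here are the
descent along extensions of the ground field and the application to Weil-étale cohomology; the result in the starting files on this problem is on almost all slope types of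
CM fields, where no abelian variety of a given small dimension is covered completely.
-/

set_option autoImplicit false

namespace Pool.Agent.Results.MP_cb388a_ag.GeneratedSmallAbelianH65

open Pool.Agent.W495.TA Pool.Agent.W495.FM Pool.Agent.E8helper65.PG
  Pool.Agent.R937.PG
open Pool.Agent.TH117.GN (IsWeilEtale)

/-- The groups `H^i_W(X, ℤ(n))` are finitely generated for all smooth projective varieties in the class
generated by the abelian varieties `IsGoodAVP`. -/
theorem result (p : ℕ) [Fact p.Prime] (ν : PadicAlgCl p ≃+* ℂ) (Ω : Type) [Field Ω]
    [IsAlgClosed Ω] [CharZero Ω] (V : Type) (T : Homology Ω V) (hT : IsHomology T)
    (S : V → Prop) (W : V → ℤ → ℤ → Type) [∀ X n i, AddCommGroup (W X n i)]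
    (hW : IsWeilEtale T S W) (X : V) (hS : S X) (hX : GeneratedD T (IsGoodAbelianP p ν T) X)
    (n i : ℤ) : AddGroup.FG (W X n i) :=
  hW X hS (tb_goodD hT hX) n i

end Pool.Agent.Results.MP_cb388a_ag.GeneratedSmallAbelianH65
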