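import Pool.Agent.E8helper1.TBU.Conv

/-!
# Lichtenbaum's conjecture for one power of a variety implies it for all powers

Let `X` be a smooth projective variety over a finite field `𝔽_q`, `d` its dimension, `b` the dimension of
its whole `ℓ`-adic cohomology,

  `M = 2 b! ((2 d + 1) b!) ^ (b - 1)`,

and let `m ≥ M` be a natural number with `m ≥ b³ M² log (2 b M + 1)`. (For the variety `Y` over `𝔽_q`
let `Y_s` be its base change to `𝔽_(q^s)`.)

**Theorem.** If for **one** power `Y = X ^ (2 m)` all groups `H^i_W(Y_s, ℤ(c))` (all `s`, `c`, `i`)
are finitely generated, then for **all** powers `Y = X ^ N` all groups `H^i_W(Y_s, ℤ(c))` are finitely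
generated, the conjectures of Tate, Beilinson (rational, homological and numerical equivalence are equal)
and Parshin (the higher Chow groups are torsion) are true, and the cohomology is semisimple. The same
conclusion is proved under each of the following weaker assumptions on the one power `Y = X ^ (2 m)`:

* the strong form of the Tate conjecture, or the Tate conjecture and semisimplicity, and rational and
  homological equivalence are equal for cycles with rational coefficients on `Y`;
* the strong form of the Tate conjecture, or the Tate conjecture and semisimplicity, if the
  homologically trivial correspondences on the powers of `X` are nilpotent (Kimura: this is true if the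
  motive of `X` is finite-dimensional, for example if `X` is dominated by a product of curves).

The setting: `k` is the algebraic closure of `𝔽_q`, `𝒱` a class of smooth proper varieties over `k` with
cycles and their operations, `W` the `ℓ`-adic cohomology with its cycle classes, `G` the operation of the
Weil group on the cohomology of the powers of `X` (generated by the Frobenius `γ`, `IsFinite`;
`Frobenii`: integral, and Frobenius elements are dense), and `C` (`Chow`) consists of the higher Chow
groups with rational coefficients and the correspondences of degree zero on the powers `pw X n` of `X`
(`n + 1` factors), with their known properties `IsChow` (`IsTheory`, `IsExt`): the action of correspondences commutes with the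
cycle maps, every element is defined over a finite field, so that a power `F ^ s` of the Frobenius acts
on it by `q ^ (s c)`, the correspondence `x × y` acts by the projection formula (the higher rational
`K`-groups of a finite field vanish, Quillen), and Kimura's theorem: if rational and homological
equivalence are equal on `X ^ (2 m)`, `m > b`, the motive of `X` is finite-dimensional (the
Künneth projectors are algebraic, Katz-Messing) and the homologically trivial correspondences on all
powers are nilpotent. `IsWeilEtale` consists of the theorems of Geisser: all groups `H^i_W(Y_s, ℤ(c))`
are finitely generated if and only if the conjectures of Tate (with semisimplicity), Beilinson and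
Parshin are true for `Y`.

The proof: by the theorem `MP_0fca13_ag.OnePowerAnyFieldH1` the strong form of the Tate conjecture for
`X ^ (2 m)` implies semisimplicity, the Tate conjecture and the equality of homological and
numerical equivalence for all powers `Y` (a reductive Lie algebra is deformed to one closed under adjoints
by the theorem of Kempf and Ness, and a packing and an integral argument bound the index). Then the
argument of Soulé, Geisser and Kahn, which is proved here, applies: let `p` be the sum of the
products `x_a × y_a` of dual bases of the spaces of algebraic classes. On the complement of the image of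
`p` a polynomial `R` in a power `F ^ s` of the Frobenius with `R (q ^ (s c)) ≠ 0` is zero on the
cohomology, so `R (F ^ s) (1 - p)` is nilpotent, and every element of a higher Chow group is in the image
of `p`.
-/

open CategoryTheory AlgebraicGeometry

universe u

namespace Pool.Agent.Results.MP_cb388a_ag.OnePowerH1

open Pool.Agent.H914 Pool.Agent.H914.VarClass
open Pool.Agent.E8helper1.TP (Gal hdim)
open Pool.Agent.E8helper1.TPQ (Frobenii)
open Pool.Agent.E8helper1.TBU

variable {k : Type u} [Field k] {𝒱 : VarClass k} {ops : CycleOps 𝒱}
  {W : WeilCohomology.{u, 0} ops} {X : 𝒱.Obj}

/-- **Lichtenbaum's conjecture for one power implies it for all powers.** Here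
`E n s c i = H^i_W(Y_s, ℤ(c))` for the product `Y = pw X n` of `n + 1` copies of `X`. -/
theorem result {ℓ : ℕ} [Fact ℓ.Prime] (φ : W.K ≃+* ℚ_[ℓ]) (hX : 0 < hdim W X)
    (G : Gal W X) (hG : Frobenii G φ) (C : Chow W X) (q : ℕ) (γ : G.Γ) (hF : IsFinite G q γ)
    (hC : IsChow G C q γ) (E : ℕ → ℕ → ℕ → ℤ → Type) [∀ n s c i, AddCommGroup (E n s c i)]
    (hE : IsWeilEtale G C E) (m : ℕ) (hm : IsLarge (hdim W X) X.dim m)
    (hT : AllFG (E (2 * m - 1)) ∨ HoldsFor G C (2 * m - 1)) :
    G.Semisimple ∧ ∀ n, TateBeilinson G C n ∧ AllFG (E n) :=
  one_power_fg φ hX hG hF hC hE hm hT

end Pool.Agent.Results.MP_cb388a_ag.OnePowerH1
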