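import Pool.Agent.Q193.LT.Mod
import Pool.Agent.R904.TR.Res

/-!
# Finite generation of Weil-étale motivic cohomology and trilinear forms

`WeilEtale k E` lists the properties which are used of Weil-étale motivic cohomology with compact supports
`H^i_c(X_W, E(n))` of separated schemes `X` of finite type over a finite field `k`, with coefficients in `E`: for
`E = ℤ[1/p]` it is the cohomology with compact supports of the complexes `cone (1 - φ)[-1]` on `X̄` (étale motivic
complexes; all the properties are theorems); for `E = ℤ` it is Geisser's arithmetic cohomology with compact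
supports, for which the properties are theorems under resolution of singularities. For `X` smooth and
projective it is the group `H^i_W(X, ℤ(n))` (tensored with `E`).
-/

set_option autoImplicit false

open CategoryTheory AlgebraicGeometry Pool.Agent.Y116.UV Pool.Agent.Z125.UN Pool.Agent.Q193.LT
open Pool.Agent.R904.CU Pool.Agent.R904.TR

namespace Pool.Agent.Results.MP_cb388a_ag.TrilinearHypersurfacesH75

/-- Weil-étale motivic cohomology with compact supports, with coefficients in `E`, for the schemes over `k`: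
the groups and their known properties. -/
structure WeilEtale (k : Type) [Field k] (E : Type) [CommRing E] where
  /-- the groups `H^i_c(X_W, E(n))` -/
  H : ℤ → ℤ → Sch k → ModuleCat.{0} E
  /-- the groups `H^i_c(X̄, E(n))` over the algebraic closure -/
  Hbar : ℤ → ℤ → Sch k → ModuleCat.{0} E
  /-- the Frobenius `φ` on `H^i_c(X̄, E(n))` -/
  frob : ∀ i n X, Hbar i n X ⟶ Hbar i n X
  /-- `H^i_c(X̄, E(n)) → H^{i+1}_c(X_W, E(n))` -/
  bd : ∀ i n X, Hbar i n X ⟶ H (i + 1) n X
  /-- `H^i_c(X_W, E(n)) → H^i_c(X̄, E(n))` -/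
  res : ∀ i n X, H i n X ⟶ Hbar i n X
  /-- the exact sequences `0 → H^i_c(X̄)_φ → H^{i+1}_c(X_W) → H^{i+1}_c(X̄)^φ → 0` -/
  coinv : ∀ i n X, ExactAt (𝟙 (Hbar i n X) - frob i n X) (bd i n X)
  middle : ∀ i n X, ExactAt (bd i n X) (res (i + 1) n X)
  inv : ∀ i n X, ExactAt (res i n X) (𝟙 (Hbar i n X) - frob i n X)
  /-- the groups depend only on the isomorphism class of `X` -/
  iso : ∀ {X Y : Sch k}, FT True X → Nonempty (X ≅ Y) → ∀ i n, Nonempty (H i n X ≅ H i n Y)
  /-- for a closed subscheme `Z` of `X` with complement `U` the long exact sequence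
  `⋯ → H^i_c(U) → H^i_c(X) → H^i_c(Z) → H^{i+1}_c(U) → ⋯` -/
  localization : ∀ {Z X U : Sch k} (c : Z ⟶ X) (j : U ⟶ X), FT True X → IsTriple c j → ∀ n : ℤ,
    ∃ (f : ∀ i, H i n U ⟶ H i n X) (g : ∀ i, H i n X ⟶ H i n Z) (h : ∀ i, H i n Z ⟶ H (i + 1) n U),
      (∀ i, ExactAt (f i) (g i)) ∧ (∀ i, ExactAt (g i) (h i)) ∧ ∀ i, ExactAt (h i) (f (i + 1))
  /-- Let `U` be the open subscheme of `Spec A` where `f_1, ..., f_m` do not all vanish. The affine scheme
  `t_1 f_1 + ... + t_m f_m = 1` is a bundle of affine spaces of dimension `m - 1` over `U`, and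
  `H^i_c(E, E(n)) = H^{i-2(m-1)}_c(U, E(n-(m-1)))`. -/
  bundle : ∀ (A : Type) [CommRing A] [Algebra k A] [Algebra.FiniteType k A] (m : ℕ) (f : Fin m → A)
    (U : Sch k) (j : U ⟶ aff k A), IsOpenImmersion j.left →
    Set.range j.left = {x : PrimeSpectrum A | ∃ l, f l ∉ x.asIdeal} →
    ∀ i n : ℤ, Nonempty (H i n (aff k (Jou f)) ≅ H (i - 2 * (m - 1)) (n - (m - 1)) U)
  /-- `H^{i+1}_c(X × 𝔾_m, E(n)) = H^i_c(X, E(n)) ⊕ H^{i-1}_c(X, E(n-1))` -/
  laurent : ∀ (A : Type) [CommRing A] [Algebra k A] [Algebra.FiniteType k A] (i n : ℤ),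
    Nonempty (H (i + 1) n (aff k (LaurentPolynomial A)) ≅
      ModuleCat.of E (H i n (aff k A) × H (i - 1) (n - 1) (aff k A)))
  /-- in dimension at most one all the groups are finitely generated -/
  curves : ∀ X : Sch k, FT True X → topologicalKrullDim X.left ≤ 1 →
    ∀ i n, Module.Finite E (H i n X)

namespace WeilEtale

variable {k : Type} [Field k] {E : Type} [CommRing E] (W : WeilEtale k E)

/-- All the groups `H^i_c(X_W, E(n))` of `X` are finitely generated. -/
def Fg (X : Sch k) : Prop := ∀ i n, Module.Finite E (W.H i n X)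

/-- Finite generation for the smooth separated schemes of dimension at most `d`. -/
def SmoothDim (d : ℕ) : Prop :=
  ∀ X : Sch k, FT True X → Smooth X.hom → topologicalKrullDim X.left ≤ d → W.Fg X

/-- Finite generation for all separated schemes of finite type of dimension at most `d`. -/
def AllDim (d : ℕ) : Prop := ∀ X : Sch k, FT True X → topologicalKrullDim X.left ≤ d → W.Fg X

/-- Finite generation for the hypersurfaces `T(x, y, z) = 1`, where `T` is a trilinear form over `k` in three
blocks of variables, one of which has at most `e` variables. -/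
def Block (e : ℕ) : Prop := ∀ (a b c : ℕ) (T : Fin a → Fin b → Fin c → k),
  (a ≤ e ∨ b ≤ e ∨ c ≤ e) → W.Fg (hypS T)

/-- Finite generation for the hypersurfaces `T(x, y, z) = 1`, where all coefficients of `T` are `0` or `1`. -/
def ZeroOne : Prop := ∀ (a b c : ℕ) (T : Fin a → Fin b → Fin c → k),
  (∀ i j l, T i j l = 0 ∨ T i j l = 1) → W.Fg (hypS T)

/-- The question for a given dimension: finite generation for smooth and proper schemes. -/
def Lichtenbaum (d : ℕ) : Prop :=
  ∀ X : Sch k, IsProper X.hom → Smooth X.hom → topologicalKrullDim X.left ≤ d → W.Fg X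

/-- the family of the groups -/
def fam (j : ℤ × ℤ) (X : Sch k) : ModuleCat.{0} E := W.H j.1 j.2 X

/-- the shift of the connecting map -/
def dl : ℤ × ℤ ≃ ℤ × ℤ where
  toFun j := (j.1 + 1, j.2)
  invFun j := (j.1 - 1, j.2)
  left_inv j := by simp
  right_inv j := by simp

/-- the Tate twist -/
def tw : ℤ × ℤ ≃ ℤ × ℤ where
  toFun j := (j.1 + 2, j.2 + 1)
  invFun j := (j.1 - 2, j.2 - 1)
  left_inv j := by simp
  right_inv j := by simp

lemma tw_pow (r : ℕ) (j : ℤ × ℤ) : ((tw : Equiv.Perm (ℤ × ℤ)) ^ r) j = (j.1 + 2 * r, j.2 + r) := by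
  induction r with
  | zero => simp
  | succ r ih =>
    rw [pow_succ', Equiv.Perm.mul_apply, ih]
    change (j.1 + 2 * (r : ℤ) + 2, j.2 + (r : ℤ) + 1) = _
    push_cast
    ext <;> simp <;> ring

lemma tw_inv_pow (r : ℕ) (j : ℤ × ℤ) :
    ((tw : Equiv.Perm (ℤ × ℤ)) ^ r)⁻¹ j = (j.1 - 2 * r, j.2 - r) := by
  rw [Equiv.Perm.inv_eq_iff_eq, tw_pow]
  ext <;> simp

lemma tw_zpow (r : ℤ) (j : ℤ × ℤ) : ((tw : Equiv.Perm (ℤ × ℤ)) ^ r) j = (j.1 + 2 * r, j.2 + r) := by
  obtain ⟨m, rfl | rfl⟩ := r.eq_nat_or_neg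
  · rw [zpow_natCast, tw_pow]
  · rw [zpow_neg, zpow_natCast, tw_inv_pow]
    ext <;> simp <;> ring

lemma factor (A : Type) [CommRing A] [Algebra k A] [Algebra.FiniteType k A] (i n : ℤ) :
    ∃ (s : W.H i n (aff k A) ⟶ W.H (i + 1) n (aff k (LaurentPolynomial A)))
      (r : W.H (i + 1) n (aff k (LaurentPolynomial A)) ⟶ W.H i n (aff k A)), s ≫ r = 𝟙 _ := by
  obtain ⟨e⟩ := W.laurent A i n
  refine ⟨ModuleCat.ofHom (LinearMap.inl E _ _) ≫ e.inv,
    e.hom ≫ ModuleCat.ofHom (LinearMap.fst E _ _), ?_⟩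
  rw [Category.assoc, Iso.inv_hom_id_assoc]
  rfl

lemma isMod : IsMod True W.fam dl tw dl where
  iso h e j := W.iso h e j.1 j.2
  les {Z X U} c j h ht := by
    left
    choose f g d h1 h2 h3 using W.localization c j h ht
    exact ⟨⟨fun q => f q.2 q.1, fun q => g q.2 q.1, fun q => d q.2 q.1⟩,
      ⟨fun q => h1 q.2 q.1, fun q => h2 q.2 q.1, fun q => h3 q.2 q.1⟩⟩
  bundle B _ _ _ m f U j hj hr q := by
    obtain ⟨e⟩ := W.bundle B m f U j hj hr q.1 q.2
    have h : ((tw : Equiv.Perm (ℤ × ℤ)) ^ (1 - m : ℤ)) q = (q.1 - 2 * (m - 1), q.2 - (m - 1)) := by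
      rw [tw_zpow]
      ext <;> simp <;> ring
    rw [h]
    exact ⟨e⟩
  torus B _ _ _ q := W.factor B q.1 q.2

lemma inClass_iff (X : Sch k) :
    InClass W.fam (fun M : ModuleCat.{0} E => Module.Finite E M) X ↔ W.Fg X :=
  ⟨fun h i n => h (i, n), fun h j => h j.1 j.2⟩

lemma bnd [IsNoetherianRing E] : Bnd True W.Fg := by
  have h1 : InClass W.fam (fun M : ModuleCat.{0} E => Module.Finite E M) (aff k k) := by
    intro j
    refine W.curves _ (ft_aff True) ?_ j.1 j.2
    rw [topDim_aff, ringKrullDim_eq_zero_of_field]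
    exact zero_le_one
  have h := bnd_mod W.isMod (serre_finite (E := E)) h1
  have h2 : InClass W.fam (fun M : ModuleCat.{0} E => Module.Finite E M) = W.Fg := by
    funext X
    exact propext (W.inClass_iff X)
  rw [← h2]
  exact h

end WeilEtale

/-- Let `k` be a finite field. (1) For every `d`, finite generation of the Weil-étale motivic cohomology with
compact supports of all smooth schemes of dimension at most `d`, of all schemes of dimension at most `d`, and of
the smooth hypersurfaces `T(x, y, z) = 1` with a block of at most `d + 2` variables are equivalent; and they imply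
Lichtenbaum's conjecture for the smooth proper schemes of dimension at most `d`. (2) It is finitely generated
for all hypersurfaces `T(x, y, z) = 1` with a block of at most three variables. (3) If `k` is a prime field, then
it is finitely generated for all schemes if and only if it is so for the `T(x, y, z) = 1` with
coefficients `0` and `1`. (4) The hypersurfaces `T(x, y, z) = 1` are smooth. -/
theorem result (k : Type) [Field k] [Finite k] (E : Type) [CommRing E] [IsNoetherianRing E]
    (W : WeilEtale k E) :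
    (∀ d : ℕ, (W.SmoothDim d ↔ W.Block (d + 2)) ∧ (W.AllDim d ↔ W.Block (d + 2)) ∧
      (W.Block (d + 2) → W.Lichtenbaum d)) ∧
    W.Block 3 ∧
    (Function.Surjective (Int.cast : ℤ → k) → ((∀ X : Sch k, FT True X → W.Fg X) ↔ W.ZeroOne)) ∧
    ∀ (a b c : ℕ) (T : Fin a → Fin b → Fin c → k), Smooth (hypS T).hom := by
  have hB := W.bnd
  have h1 : ∀ d : ℕ, W.SmoothDim d ↔ W.Block (d + 2) := fun d => smooth_iff hB d
  have h2 : ∀ d : ℕ, W.AllDim d ↔ W.Block (d + 2) := fun d => dim_iff hB d
  refine ⟨fun d => ⟨h1 d, h2 d, fun h X hX hs hd => ?_⟩, ?_, fun hk => ⟨fun h a b c T _ => h _ (ft_aff True),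
    fun h X hX => ?_⟩, fun a b c T => ?_⟩
  · have : FT True X := ⟨inferInstance, inferInstance, fun _ => inferInstance⟩
    exact (h1 d).mpr h X this hs hd
  · refine (h2 1).mp fun X hX hd => W.curves X hX ?_
    exact_mod_cast hd
  · exact universal hB.toUni (S := {0, 1}) (Or.inl rfl) (Or.inr rfl)
      (fun a b c T hT => h a b c T fun i j l => hT i j l) (presents_zero_one hk) X hX
  · exact smooth_aff (hyp_smooth T)

end Pool.Agent.Results.MP_cb388a_ag.TrilinearHypersurfacesH75
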